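import Pool.Agent.H68.GCL.Targets

/-!
MP_d2582e_lc, row PMX (board gcl): maximality is transferred by the substitution (helper79).
-/

set_option linter.unusedVariables false

namespace Pool.Agent.H79.GCL

open Pool.Agent.H76.SW Pool.Agent.H68.GCL

theorem mono' (h7 : U_q6_mono) {A V V' : Type} {r : ℕ} (Q : Query A r) (E : V → A → V → Prop)
    (E' : V' → A → V' → Prop) (h : V → V') (hh : ∀ u a v, E u a v → E' (h u) a (h v))
    (z : Fin r → V) (hs : Q.Sat E z) : Q.Sat E' (fun i => h (z i)) := by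
  obtain ⟨t, ht, hs⟩ := hs
  exact ⟨t, ht, (h7 E E' h hh).2 r t z hs⟩

def body0 (A : Type) : Body A 0 where
  n := 0
  m := 0
  src := Fin.elim0
  tgt := Fin.elim0
  st := Fin.elim0
  aut := fun i => i.elim0

/-- the query which is always true -/
def crq0 (A : Type) : CRQ A 0 where
  c := 0
  b := body0 A
  sub := Fin.elim0
  out := Fin.elim0

theorem crq0_sat {A V : Type} (E : V → A → V → Prop) (z : Fin 0 → V) : (crq0 A).Sat E z :=
  ⟨Fin.elim0, fun i => i.elim0, fun i => i.elim0⟩

theorem empty_case (h7 : U_q6_mono) (h10 : U_d6_small) {B V : Type} [IsEmpty V] (k : ℕ) {r : ℕ}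
    (F : V → B → V → Prop) (z : Fin r → V) (Γh Δh : Query B r) (hΓ : Γh.Sat F z)
    (hmax : ∀ Ω : Query B r, Ω.Width k → Ω.Le Γh → Ω.Le Δh) : Δh.Sat F z := by
  have hr : r = 0 := by
    rcases Nat.eq_zero_or_pos r with h | h
    · exact h
    · exact (IsEmpty.false (z ⟨0, h⟩)).elim
  subst hr
  refine hmax [crq0 B] ?_ ?_ V F z ⟨crq0 B, List.mem_singleton_self _, crq0_sat F z⟩
  · intro s hs
    rw [List.mem_singleton] at hs
    subst hs
    exact ⟨h10 (V := Fin 0) _ k (by rw [Fintype.card_fin]; omega), fun j => j.elim0⟩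
  · intro W _ G z'' _
    have h1 := mono' h7 Γh F G (fun v => isEmptyElim v) (fun u => isEmptyElim u) z hΓ
    have e : (fun i => (fun v : V => (isEmptyElim v : W)) (z i)) = z'' := Subsingleton.elim _ _
    rw [e] at h1
    exact h1

theorem pf_PMX (h1 : T_TRQ) (h2 : T_DEW) (h3 : T_DEA) (h4 : T_DES) (h5 : T_CAN) (h6 : U_e2_top)
    (h7 : U_q6_mono) (h8 : U_s2_fin) (h9 : U_s8_hom) (h10 : U_d6_small) : T_PMX := by
  intro A I _ k hk r g hg Γh Δh Γ Δ hΓ hΔ hmax Ω hΩ hΩΓ V hfinV E z hsat
  rcases isEmpty_or_nonempty V with hV | hV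
  · rw [hΔ]
    exact empty_case h7 h10 k (plus E g) z Γh Δh ((hΓ V E z).1 (hΩΓ V E z hsat)) hmax
  · obtain ⟨t, ht, hst⟩ := hsat
    obtain ⟨n, m, src, tgt, ch, v0, out, htw, hchw, ⟨μ, hμ, hμz⟩, htrans⟩ :=
      h6 k hk t (hΩ t ht) E z hst hV
    obtain ⟨T, hT⟩ : ∃ T : Term A, T = Term.node n m src tgt ch v0 v0 := ⟨_, rfl⟩
    have hfinP : Finite (Term.node n m src tgt ch v0 v0).Pos := h8 _
    have hfinC : Finite (Cv (Term.node n m src tgt ch v0 v0).stp) := Quot.finite _
    -- the canonical database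
    have hcan := fun i => h5 src tgt ch v0 v0 i
    have htD := htrans (Cv (Term.node n m src tgt ch v0 v0).stp)
      (canon (Term.node n m src tgt ch v0 v0).stp)
      (fun v => cl (Term.node n m src tgt ch v0 v0).stp (Sum.inl v)) hcan
    have hΓD := (hΓ _ _ _).1 (hΩΓ _ _ _ ⟨t, ht, htD⟩)
    -- the decorated query
    have hw := h2 (plus (canon (Term.node n m src tgt ch v0 v0).stp) g) k hk
      (Term.node n m src tgt ch v0 v0) (cl (Term.node n m src tgt ch v0 v0).stp) ⟨htw, hchw⟩
    rw [decT] at hw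
    obtain ⟨hw1, hw2⟩ := hw
    obtain ⟨hs1, hs2⟩ := (h1 (A := A ⊕ I)).2.2 (dSrc I src) (dSrc I tgt)
      (dCh (fun i => decT (plus (canon (Term.node n m src tgt ch v0 v0).stp) g) (ch i)
          (fun y => cl (Term.node n m src tgt ch v0 v0).stp (Sum.inr ⟨i, y⟩)))
        (nLoop (plus (canon (Term.node n m src tgt ch v0 v0).stp) g)
          fun v => cl (Term.node n m src tgt ch v0 v0).stp (Sum.inl v))) out
    have hΩ' := hmax [_] (fun s hs => by
      rw [List.mem_singleton] at hs
      rw [hs]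
      exact hs2 k hk hw1 hw2) (fun W _ G z'' hG => by
      obtain ⟨t', ht', hG'⟩ := hG
      rw [List.mem_singleton] at ht'
      rw [ht', hs1] at hG'
      obtain ⟨μ'', hμ1, hμ2⟩ := hG'
      obtain ⟨ν, hν, hν2⟩ := (h3 (plus (canon (Term.node n m src tgt ch v0 v0).stp) g) G).2 src tgt
        ch v0 v0 (cl (Term.node n m src tgt ch v0 v0).stp) μ'' hμ1
      have hom : ∀ u l v, plus (canon (Term.node n m src tgt ch v0 v0).stp) g u l v →
          G (Quot.lift ν (fun x y hxy => hν.sil x y hxy) u) l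
            (Quot.lift ν (fun x y hxy => hν.sil x y hxy) v) := by
        intro u l v hF
        rcases l with a | i
        · obtain ⟨x, y, rfl, rfl, hxy⟩ := hF
          exact hν.lab x a y hxy
        · have hF' : (g i).Sat (canon (Term.node n m src tgt ch v0 v0).stp) u v := hF
          rcases (hg i).2 _ _ u v hF' with h | ⟨a, h | h⟩
          · subst h
            obtain ⟨x, rfl⟩ := Quot.exists_rep u
            exact hν.loop x i hF
          · obtain ⟨x, y, rfl, rfl, hxy⟩ := h
            exact hν.fwd x a y i hxy hF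
          · obtain ⟨x, y, rfl, rfl, hxy⟩ := h
            exact hν.bwd x a y i hxy hF
      have h11 := mono' h7 Γh _ G _ hom _ hΓD
      have e : (fun j => Quot.lift ν (fun x y hxy => hν.sil x y hxy)
          (cl (Term.node n m src tgt ch v0 v0).stp (Sum.inl (out j)))) = z'' := by
        funext j
        rw [← hμ2 j, ← hν2 (out j)]
        rfl
      rw [e] at h11
      exact h11)
    have hdes := (h4 (plus (canon (Term.node n m src tgt ch v0 v0).stp) g)).2 src tgt ch v0 v0
      (cl (Term.node n m src tgt ch v0 v0).stp) (fun x y hxy => Quot.sound hxy)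
      (fun x a y hxy => ⟨x, y, rfl, rfl, hxy⟩)
    have hsF := hΩ' (Cv (Term.node n m src tgt ch v0 v0).stp)
      (plus (canon (Term.node n m src tgt ch v0 v0).stp) g)
      (fun j => cl (Term.node n m src tgt ch v0 v0).stp (Sum.inl (out j)))
      ⟨_, List.mem_singleton_self _, (hs1 _ _ _).2
        ⟨fun v => cl (Term.node n m src tgt ch v0 v0).stp (Sum.inl v), hdes, fun j => rfl⟩⟩
    have hΔD := (hΔ _ _ _).2 hsF
    obtain ⟨φ, hφ1, hφ2⟩ := h9 src tgt ch v0 v0 E μ hμ
    have h12 := mono' h7 Δ _ E φ hφ2 _ hΔD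
    have e : (fun j => φ (cl (Term.node n m src tgt ch v0 v0).stp (Sum.inl (out j)))) = z := by
      funext j
      rw [hφ1, hμz]
    rw [e] at h12
    exact h12

end Pool.Agent.H79.GCL
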